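import Pool.Agent.helper78.ED.Defs
import Pool.Agent.helper59.DM.DV

/-! # Project ED, module MO: the mollified series -/

set_option autoImplicit false

open Complex MeasureTheory

namespace Pool.Agent.helper78.ED

open Pool.Agent.helper84.DM

theorem am_one {X : ℝ} (hX : 1 ≤ X) : am X 1 = 1 := by
  unfold am
  rw [Nat.divisors_one, Finset.sum_singleton]
  rw [if_pos (by simpa using hX)]
  simp

theorem am_zero {X : ℝ} {n : ℕ} (h1 : 1 < n) (h2 : (n : ℝ) ≤ X) : am X n = 0 := by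
  unfold am
  have e : ∀ k ∈ n.divisors, (if (k : ℝ) ≤ X then ((ArithmeticFunction.moebius k : ℤ) : ℂ) else 0)
      = ((ArithmeticFunction.moebius k : ℤ) : ℂ) := by
    intro k hk
    have hk' : k ≤ n := Nat.divisor_le hk
    have : (k : ℝ) ≤ X := le_trans (by exact_mod_cast hk') h2
    rw [if_pos this]
  rw [Finset.sum_congr rfl e]
  have h3 : ∑ k ∈ n.divisors, ArithmeticFunction.moebius k = 0 := by
    have h4 := ArithmeticFunction.coe_mul_zeta_apply (f := ArithmeticFunction.moebius) (x := n)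
    rw [ArithmeticFunction.moebius_mul_coe_zeta] at h4
    rw [← h4, ArithmeticFunction.one_apply_ne (by omega)]
  exact_mod_cast congrArg (fun z : ℤ => (z : ℂ)) h3

theorem MO_norm (X : ℝ) (k : ℕ) :
    ‖(if (k : ℝ) ≤ X then ((ArithmeticFunction.moebius k : ℤ) : ℂ) else 0)‖ ≤ 1 := by
  split_ifs
  · rw [Complex.norm_intCast]
    exact_mod_cast ArithmeticFunction.abs_moebius_le_one
  · simp

theorem am_le (X : ℝ) (n : ℕ) : ‖am X n‖ ≤ d n := by
  unfold am d
  refine (norm_sum_le _ _).trans ?_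
  refine (Finset.sum_le_sum (fun k _ => MO_norm X k)).trans ?_
  simp

theorem moll_le {X : ℝ} (hX : 1 ≤ X) {s : ℂ} (hs : 0 ≤ s.re) : ‖moll X s‖ ≤ X := by
  unfold moll
  refine (norm_sum_le _ _).trans ?_
  have h : ∀ k ∈ Finset.Icc 1 ⌊X⌋₊, ‖((ArithmeticFunction.moebius k : ℤ) : ℂ) * (k : ℂ) ^ (-s)‖
      ≤ 1 := by
    intro k hk
    have hk1 : 1 ≤ k := (Finset.mem_Icc.mp hk).1
    have hk' : (1 : ℝ) ≤ k := by exact_mod_cast hk1
    rw [norm_mul, Complex.norm_intCast, Complex.norm_natCast_cpow_of_pos (by omega)]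
    have h1 : |((ArithmeticFunction.moebius k : ℤ) : ℝ)| ≤ 1 := by
      exact_mod_cast ArithmeticFunction.abs_moebius_le_one
    have h2 : (k : ℝ) ^ (-s).re ≤ 1 := by
      apply Real.rpow_le_one_of_one_le_of_nonpos hk'
      simpa using hs
    calc |((ArithmeticFunction.moebius k : ℤ) : ℝ)| * (k : ℝ) ^ (-s).re ≤ 1 * 1 :=
          mul_le_mul h1 h2 (Real.rpow_nonneg (by linarith) _) zero_le_one
      _ = 1 := one_mul 1
  refine (Finset.sum_le_sum h).trans ?_
  rw [Finset.sum_const, Nat.card_Icc, nsmul_eq_mul, mul_one]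
  have : ((⌊X⌋₊ + 1 - 1 : ℕ) : ℝ) = (⌊X⌋₊ : ℝ) := by simp
  rw [this]
  exact Nat.floor_le (by linarith)

theorem moll_diff (X : ℝ) : Differentiable ℂ (moll X) := by
  unfold moll
  refine Differentiable.fun_sum (fun k hk => ?_)
  have hk1 : 1 ≤ k := (Finset.mem_Icc.mp hk).1
  refine Differentiable.const_mul ?_ _
  intro s
  refine DifferentiableAt.const_cpow (by fun_prop) (Or.inl ?_)
  exact_mod_cast (by omega : k ≠ 0)

/-- the coefficients of the mollifier -/
noncomputable def MO_g (X : ℝ) (k : ℕ) : ℂ :=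
  if (k : ℝ) ≤ X then ((ArithmeticFunction.moebius k : ℤ) : ℂ) else 0

theorem MO_conv (X : ℝ) (n : ℕ) : LSeries.convolution 1 (MO_g X) n = am X n := by
  rw [LSeries.convolution_def]
  unfold am
  beta_reduce
  rw [Nat.sum_divisorsAntidiagonal' (f := fun i j => (1 : ℕ → ℂ) i * MO_g X j)]
  refine Finset.sum_congr rfl (fun k _ => ?_)
  simp [MO_g]

theorem MO_term (X : ℝ) (s : ℂ) (n : ℕ) (hn : n ∉ Finset.Icc 1 ⌊X⌋₊) :
    LSeries.term (MO_g X) s n = 0 := by
  rcases Nat.eq_zero_or_pos n with h0 | h0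
  · rw [h0, LSeries.term_zero]
  · rw [LSeries.term_of_ne_zero (by omega)]
    have h1 : ¬ ((n : ℝ) ≤ X) := by
      intro h
      exact hn (Finset.mem_Icc.mpr ⟨h0, Nat.le_floor h⟩)
    unfold MO_g
    rw [if_neg h1, zero_div]

theorem MO_summable (X : ℝ) (s : ℂ) : LSeriesSummable (MO_g X) s :=
  summable_of_ne_finset_zero (s := Finset.Icc 1 ⌊X⌋₊) (fun n hn => MO_term X s n hn)

theorem MO_moll (X : ℝ) (s : ℂ) : LSeries (MO_g X) s = moll X s := by
  unfold LSeries moll
  rw [tsum_eq_sum (s := Finset.Icc 1 ⌊X⌋₊) (fun n hn => MO_term X s n hn)]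
  refine Finset.sum_congr rfl (fun k hk => ?_)
  have hk1 := (Finset.mem_Icc.mp hk)
  have hk2 : (k : ℝ) ≤ X := by
    rcases lt_or_ge X 0 with hX | hX
    · rw [Nat.floor_of_nonpos hX.le] at hk1
      omega
    · exact (Nat.le_floor_iff hX).mp hk1.2
  rw [LSeries.term_of_ne_zero (by omega)]
  unfold MO_g
  rw [if_pos hk2, Complex.cpow_neg, div_eq_mul_inv]

theorem MO_term_am (X : ℝ) (s : ℂ) (n : ℕ) :
    LSeries.term (LSeries.convolution 1 (MO_g X)) s n = am X n * (n : ℂ) ^ (-s) := by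
  rw [LSeries.term_def₀ (LSeries.convolution_map_zero _ _), MO_conv]

theorem zm_series (X : ℝ) (s : ℂ) (hs : 1 < s.re) :
    Summable (fun n : ℕ => ‖am X n * (n : ℂ) ^ (-s)‖) ∧
      riemannZeta s * moll X s = ∑' n : ℕ, am X n * (n : ℂ) ^ (-s) := by
  have h1 : LSeriesSummable 1 s := LSeriesSummable_one_iff.2 hs
  have h2 := MO_summable X s
  constructor
  · have h3 : LSeriesSummable (LSeries.convolution 1 (MO_g X)) s := h1.convolution h2
    have h4 : Summable (fun n : ℕ => am X n * (n : ℂ) ^ (-s)) := by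
      refine h3.congr (fun n => ?_)
      exact MO_term_am X s n
    exact h4.norm
  · have h := LSeries_convolution' h1 h2
    rw [LSeries_one_eq_riemannZeta hs, MO_moll] at h
    rw [← h]
    unfold LSeries
    exact tsum_congr (fun n => MO_term_am X s n)

end Pool.Agent.helper78.ED
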