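import Pool.Agent.helper78.ED.Defs
import Pool.Agent.helper59.DM.KC
import Pool.Agent.helper91.DM.CT

/-! # Project ED, module PH: the weights `phi` -/

set_option autoImplicit false

open Complex MeasureTheory

namespace Pool.Agent.helper78.ED

open Pool.Agent.helper84.DM

/-- the horizontal sides are small -/
theorem PH_small (A : ℝ) (hA : 1 ≤ A) : ∃ T₀ : ℝ, ∀ T : ℝ, T₀ ≤ T →
    Real.sqrt T ^ A * Real.exp (A ^ 2 - (T / 2) ^ 2) ≤ 1 / 4 := by
  have h1 : Filter.Tendsto (fun T : ℝ => Real.exp (A ^ 2) * (T ^ A * Real.exp (-1 * T)))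
      Filter.atTop (nhds 0) := by
    have := (tendsto_rpow_mul_exp_neg_mul_atTop_nhds_zero A 1 one_pos).const_mul (Real.exp (A ^ 2))
    simpa using this
  have h2 := h1.eventually (ge_mem_nhds (by norm_num : (0 : ℝ) < 1 / 4))
  obtain ⟨T₀, hT₀⟩ := Filter.eventually_atTop.mp h2
  refine ⟨max T₀ 4, fun T hT => ?_⟩
  have hT1 := hT₀ T (le_trans (le_max_left _ _) hT)
  have hT4 : 4 ≤ T := le_trans (le_max_right _ _) hT
  refine le_trans ?_ hT1
  have a1 : Real.sqrt T ≤ T := by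
    rw [Real.sqrt_le_left (by linarith)]
    nlinarith
  have a2 : Real.sqrt T ^ A ≤ T ^ A := Real.rpow_le_rpow (Real.sqrt_nonneg _) a1 (by linarith)
  have a3 : Real.exp (A ^ 2 - (T / 2) ^ 2) ≤ Real.exp (A ^ 2) * Real.exp (-1 * T) := by
    rw [← Real.exp_add]
    apply Real.exp_le_exp.mpr
    nlinarith
  calc Real.sqrt T ^ A * Real.exp (A ^ 2 - (T / 2) ^ 2)
      ≤ T ^ A * (Real.exp (A ^ 2) * Real.exp (-1 * T)) :=
        mul_le_mul a2 a3 (Real.exp_pos _).le (Real.rpow_nonneg (by linarith) _)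
    _ = Real.exp (A ^ 2) * (T ^ A * Real.exp (-1 * T)) := by ring

/-- norm of `Y^w e^(w^2)` -/
theorem PH_norm {Y : ℝ} (hY : 0 < Y) (w : ℂ) :
    ‖(Y : ℂ) ^ w * Complex.exp (w ^ 2)‖ = Y ^ w.re * Real.exp (w.re ^ 2 - w.im ^ 2) := by
  rw [norm_mul, Complex.norm_cpow_eq_rpow_re_of_pos hY, Complex.norm_exp]
  congr 2
  rw [pow_two, Complex.mul_re]
  ring

theorem PH_side {Y A x V : ℝ} (hY : 1 ≤ Y) (hA : 1 ≤ A) (hx : -1 ≤ x) (hx' : x ≤ A) :
    ‖(Y : ℂ) ^ ((x : ℂ) + V * I) * Complex.exp (((x : ℂ) + V * I) ^ 2)‖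
      ≤ Y ^ A * Real.exp (A ^ 2 - V ^ 2) := by
  rw [PH_norm (by linarith)]
  have e1 : ((x : ℂ) + V * I).re = x := by simp
  have e2 : ((x : ℂ) + V * I).im = V := by simp
  rw [e1, e2]
  refine mul_le_mul (Real.rpow_le_rpow_of_exponent_le hY hx') ?_ (Real.exp_pos _).le
    (Real.rpow_nonneg (by linarith) _)
  apply Real.exp_le_exp.mpr
  nlinarith

theorem PH_npow {n : ℕ} (hn : 1 ≤ n) (w : ℂ) : ‖(n : ℂ) ^ (-w)‖ = (n : ℝ) ^ (-w.re) := by
  rw [Complex.norm_natCast_cpow_of_pos (by omega)]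
  simp

/-- the line integral -/
theorem PH_line {Y c V : ℝ} (hc : 0 < c) (hY : 0 < Y) (hV : 0 ≤ V) {n : ℕ} (hn : 1 ≤ n) :
    ‖∫ v in (-V)..V, (n : ℂ) ^ (-((c : ℂ) + v * I)) * ker Y c v‖ ≤
      (n : ℝ) ^ (-c) * (2 * Y ^ c * Real.exp (c ^ 2) / |c|) := by
  have hle : -V ≤ V := by linarith
  refine (intervalIntegral.norm_integral_le_integral_norm hle).trans ?_
  have e : ∀ v : ℝ, ‖(n : ℂ) ^ (-((c : ℂ) + v * I)) * ker Y c v‖ = (n : ℝ) ^ (-c) * ‖ker Y c v‖ := by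
    intro v
    rw [norm_mul, PH_npow hn]
    congr 2
    simp
  simp_rw [e]
  rw [intervalIntegral.integral_const_mul]
  exact mul_le_mul_of_nonneg_left (ker_int hc.ne' hY hV) (Real.rpow_nonneg (Nat.cast_nonneg _) _)

theorem phi_one (A : ℝ) (hA : 1 ≤ A) : ∃ T₀ : ℝ, ∀ T : ℝ, T₀ ≤ T →
    1 / 2 ≤ ‖phi (Real.sqrt T) A (T / 2) 1‖ := by
  obtain ⟨T₁, hT₁⟩ := PH_small A hA
  refine ⟨max T₁ (max (8 * (A + 1)) ((8 * Real.exp 1) ^ 2)), fun T hT => ?_⟩
  have h1 := hT₁ T (le_trans (le_max_left _ _) hT)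
  have h2 : 8 * (A + 1) ≤ T := le_trans (le_trans (le_max_left _ _) (le_max_right _ _)) hT
  have h3 : (8 * Real.exp 1) ^ 2 ≤ T := le_trans (le_trans (le_max_right _ _) (le_max_right _ _)) hT
  have hT16 : 16 ≤ T := by linarith
  set Y := Real.sqrt T with hY
  have hY1 : 1 ≤ Y := by
    rw [hY, Real.one_le_sqrt]
    linarith
  have hY8 : 8 * Real.exp 1 ≤ Y := by
    rw [hY]
    exact Real.le_sqrt_of_sq_le h3
  have hY0 : 0 < Y := by linarith
  have key := ct_res (G := fun w => (Y : ℂ) ^ w * Complex.exp (w ^ 2)) (a := -1) (b := A)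
    (V := T / 2) (M := Y ^ A * Real.exp (A ^ 2 - (T / 2) ^ 2)) (by norm_num) (by linarith)
    (by linarith) (fun z _ _ _ => by
      refine DifferentiableAt.mul ?_ (by fun_prop)
      refine DifferentiableAt.const_cpow (by fun_prop) (Or.inl ?_)
      exact_mod_cast hY0.ne')
    (fun x hx hx' => by
      refine ⟨PH_side hY1 hA hx hx', ?_⟩
      have := PH_side (V := -(T / 2)) hY1 hA hx hx'
      rw [neg_sq] at this
      convert this using 3
      · push_cast; ring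
      · push_cast; ring)
  have hG0 : ‖(fun w => (Y : ℂ) ^ w * Complex.exp (w ^ 2)) 0‖ = 1 := by
    simp
  rw [hG0] at key
  have hphi : phi Y A (T / 2) 1 = ∫ v in (-(T / 2))..(T / 2),
      (Y : ℂ) ^ ((A : ℂ) + v * I) * Complex.exp (((A : ℂ) + v * I) ^ 2) / ((A : ℂ) + v * I) := by
    unfold phi
    refine intervalIntegral.integral_congr (fun v _ => ?_)
    simp only [Nat.cast_one, Complex.one_cpow, one_mul]
    rfl
  have hm : ‖∫ v in (-(T / 2))..(T / 2), (Y : ℂ) ^ (((-1 : ℝ) : ℂ) + v * I) *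
      Complex.exp ((((-1 : ℝ) : ℂ) + v * I) ^ 2) / (((-1 : ℝ) : ℂ) + v * I)‖ ≤ 1 / 4 := by
    have h4 : ‖∫ v in (-(T / 2))..(T / 2), ker Y (-1) v‖ ≤ 2 * Y ^ (-1 : ℝ) * Real.exp ((-1) ^ 2) / |(-1 : ℝ)| :=
      (intervalIntegral.norm_integral_le_integral_norm (by linarith)).trans
        (ker_int (by norm_num) hY0 (by linarith))
    have h5 : 2 * Y ^ (-1 : ℝ) * Real.exp ((-1) ^ 2) / |(-1 : ℝ)| ≤ 1 / 4 := by
      rw [Real.rpow_neg_one, abs_neg, abs_one, div_one]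
      have : ((-1 : ℝ)) ^ 2 = 1 := by norm_num
      rw [this]
      have h6 : Real.exp 1 / Y ≤ 1 / 8 := by
        rw [div_le_div_iff₀ hY0 (by norm_num)]
        linarith
      have h7 : 2 * Y⁻¹ * Real.exp 1 = 2 * (Real.exp 1 / Y) := by
        rw [div_eq_mul_inv]; ring
      rw [h7]
      linarith
    exact h4.trans h5
  rw [hphi]
  have key' : (1 : ℝ) ≤ ‖∫ v in (-(T / 2))..(T / 2),
      (Y : ℂ) ^ ((A : ℂ) + v * I) * Complex.exp (((A : ℂ) + v * I) ^ 2) / ((A : ℂ) + v * I)‖ +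
      ‖∫ v in (-(T / 2))..(T / 2), (Y : ℂ) ^ (((-1 : ℝ) : ℂ) + v * I) *
      Complex.exp ((((-1 : ℝ) : ℂ) + v * I) ^ 2) / (((-1 : ℝ) : ℂ) + v * I)‖ +
      Y ^ A * Real.exp (A ^ 2 - (T / 2) ^ 2) := key
  linarith

theorem phi_small (A c : ℝ) (hA : 1 ≤ A) (hc : 0 < c) (hc1 : c ≤ 1) : ∃ C T₀ : ℝ, 0 < C ∧
    ∀ T : ℝ, T₀ ≤ T → ∀ n : ℕ, 1 ≤ n → ‖phi (Real.sqrt T) A (T / 2) n‖ ≤ C * T ^ c := by
  obtain ⟨T₁, hT₁⟩ := PH_small A hA
  refine ⟨2 * A + 2 * Real.exp (c ^ 2) / c, max T₁ 4, by positivity, fun T hT n hn => ?_⟩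
  have h1 := hT₁ T (le_trans (le_max_left _ _) hT)
  have hT4 : 4 ≤ T := le_trans (le_max_right _ _) hT
  set Y := Real.sqrt T with hY
  have hY1 : 1 ≤ Y := by
    rw [hY, Real.one_le_sqrt]
    linarith
  have hY0 : 0 < Y := by linarith
  have hn' : (1 : ℝ) ≤ n := by exact_mod_cast hn
  set f : ℂ → ℂ := fun w => (n : ℂ) ^ (-w) * ((Y : ℂ) ^ w * Complex.exp (w ^ 2) / w) with hf
  have hside : ∀ x V : ℝ, c ≤ x → x ≤ A → 1 ≤ |V| → |V| = T / 2 → ‖f ((x : ℂ) + V * I)‖ ≤ 1 := by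
    intro x V hx hx' hV1 hV2
    have hre : ((x : ℂ) + V * I).re = x := by simp
    have him : ((x : ℂ) + V * I).im = V := by simp
    rw [hf]
    simp only
    rw [norm_mul, norm_div, PH_npow hn, hre]
    have a1 : (n : ℝ) ^ (-x) ≤ 1 :=
      Real.rpow_le_one_of_one_le_of_nonpos hn' (by linarith)
    have a2 := PH_side (V := V) hY1 hA (by linarith : -1 ≤ x) hx'
    have a3 : (1 : ℝ) ≤ ‖(x : ℂ) + V * I‖ := by
      have := Complex.abs_im_le_norm ((x : ℂ) + V * I)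
      rw [him] at this
      linarith
    have a4 : V ^ 2 = (T / 2) ^ 2 := by rw [← sq_abs, hV2]
    rw [a4] at a2
    have a5 : ‖(Y : ℂ) ^ ((x : ℂ) + V * I) * Complex.exp (((x : ℂ) + V * I) ^ 2)‖ /
        ‖(x : ℂ) + V * I‖ ≤ 1 := by
      rw [div_le_one (by linarith)]
      linarith
    calc (n : ℝ) ^ (-x) * (‖(Y : ℂ) ^ ((x : ℂ) + V * I) * Complex.exp (((x : ℂ) + V * I) ^ 2)‖ /
        ‖(x : ℂ) + V * I‖) ≤ 1 * 1 := mul_le_mul a1 a5 (by positivity) zero_le_one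
      _ = 1 := one_mul 1
  have key := ct_shift (f := f) (a := c) (b := A) (V := T / 2) (M := 1) (by linarith) (by linarith)
    (fun z hz _ _ => by
      have hz0 : z ≠ 0 := by
        intro h
        rw [h] at hz
        simp at hz
        linarith
      rw [hf]
      refine DifferentiableAt.mul ?_ (DifferentiableAt.div (DifferentiableAt.mul ?_ (by fun_prop))
        (by fun_prop) hz0)
      · refine DifferentiableAt.const_cpow (by fun_prop) (Or.inl ?_)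
        exact_mod_cast (by omega : n ≠ 0)
      · refine DifferentiableAt.const_cpow (by fun_prop) (Or.inl ?_)
        exact_mod_cast hY0.ne')
    (fun x hx hx' => by
      constructor
      · have hT2 : |T / 2| = T / 2 := abs_of_nonneg (by linarith)
        have := hside x (T / 2) hx hx' (by rw [hT2]; linarith) hT2
        exact_mod_cast this
      · have hT2 : |(-(T / 2))| = T / 2 := by rw [abs_neg, abs_of_nonneg (by linarith)]
        have := hside x (-(T / 2)) hx hx' (by rw [hT2]; linarith) hT2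
        convert this using 3
        push_cast
        ring)
  have hA' : ∫ v in (-(T / 2))..(T / 2), f ((A : ℂ) + v * I) = phi Y A (T / 2) n := rfl
  have hline : ‖∫ v in (-(T / 2))..(T / 2), f ((c : ℂ) + v * I)‖ ≤
      (n : ℝ) ^ (-c) * (2 * Y ^ c * Real.exp (c ^ 2) / |c|) :=
    PH_line hc hY0 (by linarith) hn
  rw [hA'] at key
  have b1 : (n : ℝ) ^ (-c) ≤ 1 := Real.rpow_le_one_of_one_le_of_nonpos hn' (by linarith)
  have hYT : Y ≤ T := by
    rw [hY, Real.sqrt_le_left (by linarith)]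
    nlinarith
  have b2 : Y ^ c ≤ T ^ c := Real.rpow_le_rpow hY0.le hYT hc.le
  have b3 : (1 : ℝ) ≤ T ^ c := Real.one_le_rpow (by linarith) hc.le
  have b4 : (n : ℝ) ^ (-c) * (2 * Y ^ c * Real.exp (c ^ 2) / |c|) ≤
      2 * Real.exp (c ^ 2) / c * T ^ c := by
    rw [abs_of_pos hc]
    calc (n : ℝ) ^ (-c) * (2 * Y ^ c * Real.exp (c ^ 2) / c)
        ≤ 1 * (2 * Y ^ c * Real.exp (c ^ 2) / c) :=
          mul_le_mul_of_nonneg_right b1 (by positivity)
      _ = 2 * Real.exp (c ^ 2) / c * Y ^ c := by ring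
      _ ≤ 2 * Real.exp (c ^ 2) / c * T ^ c := mul_le_mul_of_nonneg_left b2 (by positivity)
  have b5 : ‖phi Y A (T / 2) n‖ ≤ ‖phi Y A (T / 2) n - ∫ v in (-(T / 2))..(T / 2), f ((c : ℂ) + v * I)‖
      + ‖∫ v in (-(T / 2))..(T / 2), f ((c : ℂ) + v * I)‖ := by
    have := norm_add_le (phi Y A (T / 2) n - ∫ v in (-(T / 2))..(T / 2), f ((c : ℂ) + v * I))
      (∫ v in (-(T / 2))..(T / 2), f ((c : ℂ) + v * I))
    rwa [sub_add_cancel] at this
  have b6 : 2 * (A - c) * 1 ≤ 2 * A * T ^ c := by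
    have : 2 * A * 1 ≤ 2 * A * T ^ c := mul_le_mul_of_nonneg_left b3 (by linarith)
    linarith
  rw [add_mul]
  linarith

theorem phi_tail (A : ℝ) (hA : 1 ≤ A) : ∃ C : ℝ, 0 < C ∧ ∀ T : ℝ, 1 ≤ T → ∀ n : ℕ, 1 ≤ n →
    ‖phi (Real.sqrt T) A (T / 2) n‖ ≤ C * (Real.sqrt T / n) ^ A := by
  refine ⟨2 * Real.exp (A ^ 2) / |A|, ?_, fun T hT n hn => ?_⟩
  · have : 0 < |A| := abs_pos.mpr (by linarith)
    positivity
  have hY0 : 0 < Real.sqrt T := Real.sqrt_pos.mpr (by linarith)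
  have h := PH_line (c := A) (V := T / 2) (by linarith) hY0 (by linarith) hn
  refine (le_trans (le_of_eq rfl) h).trans (le_of_eq ?_)
  rw [Real.div_rpow hY0.le (Nat.cast_nonneg _), Real.rpow_neg (Nat.cast_nonneg _)]
  ring

end Pool.Agent.helper78.ED
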